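import Pool.Graph.R_pool_sql_team_seeded_63374d34.N411.CV.Comp
import Pool.Graph.R_pool_sql_team_seeded_620a6dc7.Helper88_CC7.Fin7

set_option autoImplicit false

/-!
Every 3-edge-connected graph has a colouring with seven colours such that every cut has two edges
outside every colour class, in the form used by the circuit cover engine.
-/

namespace Pool.Agent.H1.SC

open Finset
open Pool.Agent.N411.EC (TEC Col Cr cn_eq)
open Pool.Agent.N411.CV (HasCol)

theorem hasCol_seven : HasCol (Fin 7) := by
  intro W E _ _ _ _ a b h3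
  classical
  by_cases hW : 2 ≤ Fintype.card W
  · obtain ⟨c, hc⟩ := Pool.Agent.Helper88.CC.cuts_cov7 (s := a) (t := b) hW (fun X h1 h2 => by
      have h4 := h3 X.toFinset (by simpa using h1) (by
        intro h5
        apply h2
        rw [← Set.coe_toFinset X, h5]
        simp)
      rw [cn_eq] at h4
      rw [Set.ncard_eq_toFinset_card']
      refine h4.trans (le_of_eq ?_)
      congr 1
      ext e
      simp [Cr])
    refine ⟨c, fun γ B hB1 hB2 => ?_⟩
    have h4 := hc γ (B : Set W) (by simpa using hB1) (by
      intro h5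
      apply hB2
      exact Finset.coe_eq_univ.1 h5)
    have h5 : 1 < {e | c e ≠ γ ∧ ¬ (a e ∈ (B : Set W) ↔ b e ∈ (B : Set W))}.ncard := h4
    rw [Set.one_lt_ncard_iff] at h5
    obtain ⟨e, f, he, hf, hef⟩ := h5
    refine ⟨e, f, hef, he.1, hf.1, ?_, ?_⟩
    · simpa [Cr] using he.2
    · simpa [Cr] using hf.2
  · refine ⟨fun _ => 0, fun γ B hB1 hB2 => ?_⟩
    exfalso
    apply hB2
    obtain ⟨x, hx⟩ := hB1
    have : Subsingleton W := by
      rw [← Fintype.card_le_one_iff_subsingleton]; omega
    ext y
    rw [Subsingleton.elim y x]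
    simp [hx]

end Pool.Agent.H1.SC
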