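import Pool.Agent.H1.SC.Col7
import Pool.Graph.R_seed8.TH399.CC.Main

set_option autoImplicit false
set_option linter.unusedSectionVars false

/-!
Circuit covers from a colouring of the edges with `k` colours such that no set of edges of one
colour (closed under the two-edge-cut relation) contains all but one of the edges of a cut.
-/

namespace Pool.Agent.H1.SC

open Finset
open Pool.Agent.Helper879.ECD (F2 IsFlow f2_add_self f2_cases cn)
open Pool.Agent.H126R2.CDC (MGraph isFl_iff)
open Pool.Agent.H126R2.NC (TC rep InCone InLat InIntCone cone_lat_of_intCone cover_minus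
  bridgeless_of_cone const_of_tc countP_sum)
open Pool.Agent.TH399.CC (intCone_add intCone_sum odd_part block)
open Pool.Agent.N411.CV (HasCol colouring_bridgeless)

variable {V E : Type} [Fintype V] [DecidableEq V] [Fintype E] [DecidableEq E]

/-- the colour classes may be deleted -/
def Del {k : ℕ} (v : E × Bool → V) (col : E → Fin k) : Prop :=
  (∀ e f, TC (fun e => v (e, false)) (fun e => v (e, true)) e f → col e = col f) ∧
    ∀ (X : Finset E) (γ : Fin k), (∀ e ∈ X, col e = γ) →
      (∀ e ∈ X, ∀ f, TC (fun e => v (e, false)) (fun e => v (e, true)) e f → f ∈ X) →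
      ∀ B : Finset V, cn (fun e => v (e, false)) (fun e => v (e, true)) (univ \ X) B ≠ 1

lemma sum_col {k : ℕ} (x a : ℕ) (γ0 : Fin (k + 1)) :
    ∑ γ : Fin (k + 1), (if γ0 = γ then x else a) = a * k + x := by
  have h1 : ∀ γ ∈ (univ : Finset (Fin (k + 1))),
      (if γ0 = γ then x else a) + (if γ0 = γ then a else 0) =
      a + (if γ0 = γ then x else 0) := by
    intro γ _
    by_cases h : γ0 = γ <;> simp [h, add_comm]
  have h2 := Finset.sum_congr rfl h1
  rw [Finset.sum_add_distrib, Finset.sum_add_distrib, Finset.sum_ite_eq, Finset.sum_ite_eq] at h2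
  simp only [Finset.mem_univ, if_true, Finset.sum_const, Finset.card_univ, Fintype.card_fin,
    smul_eq_mul] at h2
  have h3 : (k + 1) * a = a * k + a := by ring
  omega

lemma sum_lt (n m k : ℕ) (hk : k ≤ n) :
    ∑ t ∈ Finset.range n, (if t < k then m else 0) = m * k := by
  rw [← Finset.sum_filter, Finset.sum_const, smul_eq_mul, mul_comm]
  congr 1
  have h7 : (Finset.range n).filter (fun t => t < k) = Finset.range k := by
    ext t
    rw [Finset.mem_filter, Finset.mem_range, Finset.mem_range]
    omega
  rw [h7, Finset.card_range]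

/-- the main construction, for even weights `2 q` -/
theorem cover_even (G : MGraph V E) (hbr : G.Bridgeless) (v : E × Bool → V)
    (hv : ∀ e, G.ends e = s(v (e, false), v (e, true))) {k : ℕ} (hk : 1 ≤ k)
    (col : E → Fin (k + 1)) (hcol : Del v col) (q : E → ℕ)
    (htc : ∀ e f, TC (fun e => v (e, false)) (fun e => v (e, true)) e f → q e = q f)
    (hr : ∀ e f, k * q e + 6 * k ≤ (k + 2) * q f + 1) : InIntCone G (fun e => 2 * q e) := by
  classical
  by_cases hE : IsEmpty E
  · exact ⟨0, by simp, fun e => (hE.false e).elim⟩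
  rw [not_isEmpty_iff] at hE
  obtain ⟨hcol1, hcol2⟩ := hcol
  obtain ⟨e0, -, he0⟩ := Finset.exists_max_image (univ : Finset E) q (Finset.univ_nonempty)
  obtain ⟨e1, -, he1⟩ := Finset.exists_min_image (univ : Finset E) q (Finset.univ_nonempty)
  set M := q e0 with hM
  set μ := q e1 with hμ
  have hle0 : ∀ e, q e ≤ M := fun e => he0 e (Finset.mem_univ _)
  have hle1 : ∀ e, μ ≤ q e := fun e => he1 e (Finset.mem_univ _)
  have hMμ : k * M + 6 * k ≤ (k + 2) * μ + 1 := hr e0 e1
  have hμM : μ ≤ M := hle0 e1
  have hμ3 : 3 * k ≤ μ := by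
    have h1 : k * μ ≤ k * M := Nat.mul_le_mul_left k hμM
    have h2 : (k + 2) * μ = k * μ + 2 * μ := by ring
    omega
  obtain ⟨r, c, hc, hrc⟩ : ∃ r c : ℕ, c < 2 * k ∧ μ = 2 * k * r + 3 * k + c := by
    refine ⟨(μ - 3 * k) / (2 * k), (μ - 3 * k) % (2 * k), Nat.mod_lt _ (by omega), ?_⟩
    have := Nat.div_add_mod (μ - 3 * k) (2 * k)
    omega
  let u : E → ℕ := fun e => (q e - μ) / 4
  let w : E → ℕ := fun e => (q e - μ) % 4
  have hMr : M - μ ≤ 4 * r + 3 := by
    by_contra hcon
    push Not at hcon
    have h1 : μ + 4 * r + 4 ≤ M := by omega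
    have h2 : k * (μ + 4 * r + 4) ≤ k * M := Nat.mul_le_mul_left k h1
    have h3 : k * (μ + 4 * r + 4) = k * μ + 4 * (k * r) + 4 * k := by ring
    have h4 : (k + 2) * μ = k * μ + 2 * μ := by ring
    have h5 : 2 * k * r = 2 * (k * r) := by ring
    omega
  have hu : ∀ e, u e ≤ r := by
    intro e
    have h1 := hle0 e
    have h2 := hle1 e
    show (q e - μ) / 4 ≤ r
    omega
  have hw : ∀ e, w e ≤ 3 := fun e => by
    show (q e - μ) % 4 ≤ 3
    omega
  have hq : ∀ e, q e = μ + 4 * u e + w e := by
    intro e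
    have h2 := hle1 e
    show q e = μ + 4 * ((q e - μ) / 4) + (q e - μ) % 4
    omega
  have hutc : ∀ e f, TC (fun e => v (e, false)) (fun e => v (e, true)) e f → u e = u f := by
    intro e f h
    show (q e - μ) / 4 = (q f - μ) / 4
    rw [htc e f h]
  have hwtc : ∀ e f, TC (fun e => v (e, false)) (fun e => v (e, true)) e f → w e = w f := by
    intro e f h
    show (q e - μ) % 4 = (q f - μ) % 4
    rw [htc e f h]
  -- the rounds with eight shifted even sets
  have hA : ∀ (t : ℕ) (γ : Fin (k + 1)), InIntCone G (fun e =>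
      if col e = γ then (if t < u e then 8 else 0) else 4) := by
    intro t γ
    obtain ⟨S, hS1, hS2⟩ := block G v hv (univ.filter (fun e => col e = γ))
      (univ.filter (fun e => t < u e)) (by
        intro e he f hef
        rw [Finset.mem_filter] at he ⊢
        exact ⟨Finset.mem_univ _, by rw [← hcol1 e f hef]; exact he.2⟩) (by
        intro e he f hef
        rw [Finset.mem_filter] at he ⊢
        exact ⟨Finset.mem_univ _, by rw [← hutc e f hef]; exact he.2⟩) (by
        intro X' hX' hcl B
        refine hcol2 X' γ ?_ hcl B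
        intro e he
        exact (Finset.mem_filter.1 (hX' he)).2)
    refine ⟨S, hS1, fun e => ?_⟩
    rw [hS2 e]
    simp only [Finset.mem_filter, Finset.mem_univ, true_and]
  -- the rounds with double covers
  have hB : ∀ (t : ℕ) (γ : Fin (k + 1)), InIntCone G (fun e =>
      if col e = γ then (if t < w e then 2 else 0) else 2) := by
    intro t γ
    obtain ⟨S, hS1, hS2⟩ := cover_minus G v hv
      (univ.filter (fun e => col e = γ ∧ ¬ t < w e)) (by
        apply hcol2 _ γ
        · intro e he
          exact (Finset.mem_filter.1 he).2.1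
        · intro e he f hef
          rw [Finset.mem_filter] at he ⊢
          refine ⟨Finset.mem_univ _, ?_, ?_⟩
          · rw [← hcol1 e f hef]; exact he.2.1
          · rw [← hwtc e f hef]; exact he.2.2)
    refine ⟨S, hS1, fun e => ?_⟩
    rw [hS2 e]
    simp only [Finset.mem_filter, Finset.mem_univ, true_and]
    by_cases h1 : col e = γ
    · by_cases h2 : t < w e <;> simp [h1, h2]
    · simp [h1]
  have hC : InIntCone G (fun _ => 2 * c) := by
    obtain ⟨S, hS1, hS2⟩ := G.exists_cdc hbr
    refine ⟨c • S, fun C hC => hS1 C (Multiset.mem_of_mem_nsmul hC), fun e => ?_⟩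
    rw [Multiset.countP_nsmul, hS2 e]
    ring
  have hsumA : ∀ t e, ∑ γ : Fin (k + 1), (if col e = γ then (if t < u e then 8 else 0) else 4) =
      4 * k + (if t < u e then 8 else 0) := fun t e => sum_col _ _ _
  have hsumB : ∀ t e, ∑ γ : Fin (k + 1), (if col e = γ then (if t < w e then 2 else 0) else 2) =
      2 * k + (if t < w e then 2 else 0) := fun t e => sum_col _ _ _
  have hA' := intCone_sum G (Finset.range r) _ (fun t _ =>
    intCone_sum G (univ : Finset (Fin (k + 1))) _ (fun γ _ => hA t γ))
  have hB' := intCone_sum G (Finset.range 3) _ (fun t _ =>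
    intCone_sum G (univ : Finset (Fin (k + 1))) _ (fun γ _ => hB t γ))
  refine intCone_add G (intCone_add G hA' hB' (fun e => rfl)) hC ?_
  intro e
  show 2 * q e = ∑ t ∈ Finset.range r, ∑ γ : Fin (k + 1),
      (if col e = γ then (if t < u e then 8 else 0) else 4) +
    ∑ t ∈ Finset.range 3, ∑ γ : Fin (k + 1),
      (if col e = γ then (if t < w e then 2 else 0) else 2) + 2 * c
  rw [Finset.sum_congr rfl (fun t _ => hsumA t e), Finset.sum_congr rfl (fun t _ => hsumB t e),
    Finset.sum_add_distrib, Finset.sum_add_distrib, sum_lt r 8 (u e) (hu e), sum_lt 3 2 (w e) (hw e),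
    Finset.sum_const, Finset.sum_const, Finset.card_range, Finset.card_range]
  simp only [smul_eq_mul]
  have h1 := hq e
  have h5 : 2 * k * r = 2 * (k * r) := by ring
  have h6 : r * (4 * k) = 4 * (k * r) := by ring
  have h7 : 3 * (2 * k) = 6 * k := by ring
  omega

/-- weights of any parity -/
theorem cover_any (G : MGraph V E) (hbr : G.Bridgeless) (v : E × Bool → V)
    (hv : ∀ e, G.ends e = s(v (e, false), v (e, true))) {k : ℕ} (hk : 1 ≤ k)
    (col : E → Fin (k + 1)) (hcol : Del v col) (p : E → ℕ)
    (htc : ∀ e f, TC (fun e => v (e, false)) (fun e => v (e, true)) e f → p e = p f)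
    (hlat : InLat G p)
    (hr : ∀ e f, k * p e + 13 * k ≤ (k + 2) * p f) : InIntCone G p := by
  have h3 := cover_even G hbr v hv hk col hcol (fun e => p e / 2)
    (fun e f hef => by
      show p e / 2 = p f / 2
      rw [htc e f hef])
    (fun e f => by
      have h1 := hr e f
      show k * (p e / 2) + 6 * k ≤ (k + 2) * (p f / 2) + 1
      have h2 : k * (2 * (p e / 2)) ≤ k * p e := Nat.mul_le_mul_left k (by omega)
      have h4 : (k + 2) * p f ≤ (k + 2) * (2 * (p f / 2) + 1) :=
        Nat.mul_le_mul_left (k + 2) (by omega)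
      have h5 : k * (2 * (p e / 2)) = 2 * (k * (p e / 2)) := by ring
      have h6 : (k + 2) * (2 * (p f / 2) + 1) = 2 * ((k + 2) * (p f / 2)) + k + 2 := by ring
      omega)
  exact intCone_add G h3 (odd_part G p hlat) (fun e => (Nat.div_add_mod (p e) 2).symm)

/-- even weights, without a lower bound -/
theorem cover_near (G : MGraph V E) (hbr : G.Bridgeless) (v : E × Bool → V)
    (hv : ∀ e, G.ends e = s(v (e, false), v (e, true))) {k : ℕ}
    (col : E → Fin (k + 1)) (hcol : Del v col) (p : E → ℕ) (hev : ∀ e, Even (p e))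
    (htc : ∀ e f, TC (fun e => v (e, false)) (fun e => v (e, true)) e f → p e = p f)
    (hr : ∀ e f, k * p e ≤ (k + 1) * p f) : InIntCone G p := by
  classical
  by_cases hE : IsEmpty E
  · exact ⟨0, by simp, fun e => (hE.false e).elim⟩
  rw [not_isEmpty_iff] at hE
  obtain ⟨hcol1, hcol2⟩ := hcol
  obtain ⟨e0, -, he0⟩ := Finset.exists_max_image (univ : Finset E) p
    (Finset.univ_nonempty)
  obtain ⟨e1, -, he1⟩ := Finset.exists_min_image (univ : Finset E) p
    (Finset.univ_nonempty)
  choose q hq using hev
  have hqp : ∀ e, p e = 2 * q e := fun e => by rw [hq e]; ring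
  set M := q e0 with hM
  set T := q e0 - q e1 with hT
  have hle0 : ∀ e, q e ≤ M := fun e => by
    have := he0 e (Finset.mem_univ _)
    rw [hqp, hqp] at this; omega
  have hle1 : ∀ e, q e1 ≤ q e := fun e => by
    have := he1 e (Finset.mem_univ _)
    rw [hqp, hqp] at this; omega
  have h9 : (k + 1) * T ≤ M := by
    have h1 := hr e0 e1
    rw [hqp, hqp] at h1
    have h2 := hle0 e1
    have h3 : (k + 1) * T + (k + 1) * q e1 = (k + 1) * M := by
      rw [← mul_add]
      congr 1
      omega
    have h4 : k * (2 * q e0) = 2 * (k * M) := by rw [hM]; ring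
    have h5 : (k + 1) * (2 * q e1) = 2 * ((k + 1) * q e1) := by ring
    have h6 : (k + 1) * M = k * M + M := by ring
    omega
  have hcov : ∀ (t : ℕ) (γ : Fin (k + 1)), ∃ F : Multiset (Finset E),
      (∀ C ∈ F, G.IsCircuit C) ∧ ∀ e, F.countP (fun C => e ∈ C) =
        if e ∈ univ.filter (fun e => t < M - q e ∧ col e = γ) then 0 else 2 := by
    intro t γ
    apply cover_minus G v hv
    apply hcol2 _ γ
    · intro e he
      exact (Finset.mem_filter.1 he).2.2
    · intro e he f hef
      rw [Finset.mem_filter] at he ⊢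
      have h1 := htc e f hef
      rw [hqp, hqp] at h1
      refine ⟨Finset.mem_univ _, ?_, ?_⟩
      · have := he.2.1; omega
      · rw [← hcol1 e f hef]; exact he.2.2
  have hcov' : ∀ (t : ℕ) (γ : Fin (k + 1)), InIntCone G (fun e =>
      if col e = γ then (if t < M - q e then 0 else 2) else 2) := by
    intro t γ
    obtain ⟨F, hF1, hF2⟩ := hcov t γ
    refine ⟨F, hF1, fun e => ?_⟩
    rw [hF2 e]
    simp only [Finset.mem_filter, Finset.mem_univ, true_and]
    by_cases h1 : col e = γ
    · by_cases h2 : t < M - q e <;> simp [h1, h2]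
    · simp [h1]
  have hC : InIntCone G (fun _ => 2 * (M - (k + 1) * T)) := by
    obtain ⟨S, hS1, hS2⟩ := G.exists_cdc hbr
    refine ⟨(M - (k + 1) * T) • S, fun C hC => hS1 C (Multiset.mem_of_mem_nsmul hC), fun e => ?_⟩
    rw [Multiset.countP_nsmul, hS2 e]
    ring
  have hsum := intCone_sum G (Finset.range T) _ (fun t _ =>
    intCone_sum G (univ : Finset (Fin (k + 1))) _ (fun γ _ => hcov' t γ))
  refine intCone_add G hsum hC ?_
  intro e
  show p e = ∑ t ∈ Finset.range T, ∑ γ : Fin (k + 1),
      (if col e = γ then (if t < M - q e then 0 else 2) else 2) + 2 * (M - (k + 1) * T)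
  have h1 : ∀ t ∈ Finset.range T, ∑ γ : Fin (k + 1),
      (if col e = γ then (if t < M - q e then 0 else 2) else 2) +
      (if t < M - q e then 2 else 0) = 2 * k + 2 := by
    intro t _
    rw [sum_col]
    by_cases h : t < M - q e <;> simp [h]
  have h2 := Finset.sum_congr rfl h1
  rw [Finset.sum_add_distrib, sum_lt T 2 (M - q e) (by have := hle1 e; omega), Finset.sum_const,
    Finset.card_range, smul_eq_mul] at h2
  have h3 := hqp e
  have h4 := hle0 e
  have h5 : T * (2 * k + 2) = 2 * ((k + 1) * T) := by ring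
  omega

end Pool.Agent.H1.SC
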