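import Pool.Agent.H1.SC.Cover

set_option autoImplicit false
set_option linter.unusedSectionVars false

/-!
The three final statements on circuit covers.
-/

namespace Pool.Agent.H1.SC

open Finset
open Pool.Agent.Helper879.ECD (F2 IsFlow f2_add_self f2_cases cn)
open Pool.Agent.H126R2.CDC (MGraph isFl_iff)
open Pool.Agent.H126R2.NC (TC rep InCone InLat InIntCone cone_lat_of_intCone cover_minus
  bridgeless_of_cone const_of_tc countP_sum)
open Pool.Agent.TH399.CC (intCone_add intCone_sum odd_part block)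
open Pool.Agent.N411.CV (HasCol colouring_bridgeless)

variable {V E : Type} [Fintype V] [DecidableEq V] [Fintype E] [DecidableEq E]

/-- the edge `e` has exactly one end in `B` -/
def Crosses (G : MGraph V E) (B : Finset V) (e : E) : Prop :=
  ∃ x ∈ B, ∃ y, y ∉ B ∧ G.ends e = s(x, y)

lemma crosses_iff (G : MGraph V E) (v : E × Bool → V)
    (hv : ∀ e, G.ends e = s(v (e, false), v (e, true))) (B : Finset V) (e : E) :
    Crosses G B e ↔ ¬ (v (e, false) ∈ B ↔ v (e, true) ∈ B) := by
  constructor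
  · rintro ⟨x, hx, y, hy, hxy⟩
    rw [hv e, Sym2.eq_iff] at hxy
    rcases hxy with ⟨h1, h2⟩ | ⟨h1, h2⟩
    · rw [h1, h2]; exact fun h => hy (h.1 hx)
    · rw [h1, h2]; exact fun h => hy (h.2 hx)
  · intro h
    by_cases h1 : v (e, false) ∈ B
    · exact ⟨_, h1, v (e, true), fun h2 => h ⟨fun _ => h2, fun _ => h1⟩, hv e⟩
    · have h2 : v (e, true) ∈ B := by
        by_contra h2
        exact h ⟨fun h3 => absurd h3 h1, fun h3 => absurd h3 h2⟩
      exact ⟨_, h2, v (e, false), h1, by rw [hv e, Sym2.eq_swap]⟩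

theorem ratio_four_thirds (G : MGraph V E) (p : E → ℕ) (hr : ∀ e f, 3 * p e + 39 ≤ 4 * p f) :
    InIntCone G p ↔ InCone G p ∧ InLat G p := by
  refine ⟨cone_lat_of_intCone G p, ?_⟩
  rintro ⟨h1, h2⟩
  obtain ⟨v, hv⟩ := G.exists_halves
  have hpos : ∀ e, 0 < p e := fun e => by
    have := hr e e
    omega
  have hbr := bridgeless_of_cone G p h1 hpos
  obtain ⟨col, hcol1, hcol2⟩ := colouring_bridgeless hasCol_seven (fun e => v (e, false))
    (fun e => v (e, true)) (G.no_one_cut hbr v hv)
  exact cover_any G hbr v hv (k := 6) (by norm_num) col ⟨hcol1, hcol2⟩ p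
    (fun e f hef => const_of_tc G v hv p h1 hef) h2 (fun e f => by
      have := hr e f
      omega)

theorem ratio_seven_sixths (G : MGraph V E) (p : E → ℕ) (hev : ∀ e, Even (p e))
    (hpos : ∀ e, 0 < p e) (hr : ∀ e f, 6 * p e ≤ 7 * p f) :
    InIntCone G p ↔ InCone G p ∧ InLat G p := by
  refine ⟨cone_lat_of_intCone G p, ?_⟩
  rintro ⟨h1, -⟩
  obtain ⟨v, hv⟩ := G.exists_halves
  have hbr := bridgeless_of_cone G p h1 hpos
  obtain ⟨col, hcol1, hcol2⟩ := colouring_bridgeless hasCol_seven (fun e => v (e, false))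
    (fun e => v (e, true)) (G.no_one_cut hbr v hv)
  exact cover_near G hbr v hv (k := 6) col ⟨hcol1, hcol2⟩ p hev
    (fun e f hef => const_of_tc G v hv p h1 hef) hr

/-- a courteous colouring of a graph -/
def Court {k : ℕ} (G : MGraph V E) (col : E → Fin k) : Prop :=
  ∀ (B : Finset V) (γ : Fin k), (∃ e, Crosses G B e) →
    ∃ e f, e ≠ f ∧ Crosses G B e ∧ Crosses G B f ∧ col e ≠ γ ∧ col f ≠ γ

lemma two_le_of_court {k : ℕ} (G : MGraph V E) (col : E → Fin k) (h : Court G col)
    (v : E × Bool → V) (hv : ∀ e, G.ends e = s(v (e, false), v (e, true))) (X : Finset E)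
    (γ : Fin k) (hX : ∀ e ∈ X, col e = γ) (B : Finset V) :
    cn (fun e => v (e, false)) (fun e => v (e, true)) (univ \ X) B ≠ 1 := by
  intro h1
  unfold cn at h1
  obtain ⟨g, hg⟩ := Finset.card_eq_one.1 h1
  have hg' : g ∈ (univ \ X).filter
      (fun e => ¬ (v (e, false) ∈ B ↔ v (e, true) ∈ B)) := by rw [hg]; simp
  rw [Finset.mem_filter] at hg'
  obtain ⟨e, f, hef, he, hf, hce, hcf⟩ := h B γ ⟨g, (crosses_iff G v hv B g).2 hg'.2⟩
  have he' : e ∈ (univ \ X).filter
      (fun e => ¬ (v (e, false) ∈ B ↔ v (e, true) ∈ B)) := by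
    rw [Finset.mem_filter, Finset.mem_sdiff]
    exact ⟨⟨Finset.mem_univ _, fun h2 => hce (hX e h2)⟩, (crosses_iff G v hv B e).1 he⟩
  have hf' : f ∈ (univ \ X).filter
      (fun e => ¬ (v (e, false) ∈ B ↔ v (e, true) ∈ B)) := by
    rw [Finset.mem_filter, Finset.mem_sdiff]
    exact ⟨⟨Finset.mem_univ _, fun h2 => hcf (hX f h2)⟩, (crosses_iff G v hv B f).1 hf⟩
  rw [hg, Finset.mem_singleton] at he' hf'
  exact hef (he'.trans hf'.symm)

/-- under a courteous colouring there are no cuts with exactly two edges -/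
lemma tc_eq_of_court {k : ℕ} (G : MGraph V E) (col : E → Fin k) (h : Court G col)
    (v : E × Bool → V) (hv : ∀ e, G.ends e = s(v (e, false), v (e, true))) (e f : E)
    (hef : TC (fun e => v (e, false)) (fun e => v (e, true)) e f) : e = f := by
  classical
  by_contra hne
  obtain ⟨z, hz⟩ := hef
  let B : Finset V := univ.filter (fun w => z w = 1)
  have hB : ∀ w, w ∈ B ↔ z w = 1 := fun w => by simp [B]
  have hcr : ∀ g, Crosses G B g ↔ g = e ∨ g = f := by
    intro g
    rw [crosses_iff G v hv B g, hB, hB]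
    have h1 := hz g
    have h2 : (z (v (g, false)) = 1 ↔ z (v (g, true)) = 1) ↔
        z (v (g, false)) + z (v (g, true)) = 0 := by
      rcases f2_cases (z (v (g, false))) with h3 | h3 <;>
        rcases f2_cases (z (v (g, true))) with h4 | h4 <;> rw [h3, h4] <;> decide
    rw [h2]
    show ¬ (z (v (g, false)) + z (v (g, true)) = 0) ↔ _
    have h5 : z (v (g, false)) + z (v (g, true)) =
        (if g = e then 1 else 0) + (if g = f then 1 else 0) := h1
    rw [h5]
    by_cases h6 : g = e
    · subst h6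
      simp [hne]
    · by_cases h7 : g = f
      · subst h7
        simp [h6]
      · simp [h6, h7]
  obtain ⟨x, y, hxy, hx, hy, hcx, hcy⟩ := h B (col e) ⟨e, (hcr e).2 (Or.inl rfl)⟩
  rcases (hcr x).1 hx with h1 | h1
  · exact hcx (by rw [h1])
  · rcases (hcr y).1 hy with h2 | h2
    · exact hcy (by rw [h2])
    · exact hxy (h1.trans h2.symm)

lemma del_of_court {k : ℕ} (G : MGraph V E) (col : E → Fin k) (h : Court G col)
    (v : E × Bool → V) (hv : ∀ e, G.ends e = s(v (e, false), v (e, true))) : Del v col :=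
  ⟨fun e f hef => by rw [tc_eq_of_court G col h v hv e f hef],
    fun X γ hX _ B => two_le_of_court G col h v hv X γ hX B⟩

lemma bridgeless_of_court {k : ℕ} (G : MGraph V E) (col : E → Fin (k + 1)) (h : Court G col)
    (v : E × Bool → V) (hv : ∀ e, G.ends e = s(v (e, false), v (e, true))) : G.Bridgeless := by
  obtain ⟨F, hF1, hF2⟩ := cover_minus G v hv ∅
    (fun B => two_le_of_court G col h v hv ∅ 0 (fun e he => absurd he (Finset.notMem_empty e)) B)
  intro e
  have h1 := hF2 e
  rw [if_neg (Finset.notMem_empty e)] at h1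
  have h2 : 0 < F.countP (fun C => e ∈ C) := by rw [h1]; norm_num
  obtain ⟨C, hC, heC⟩ := Multiset.countP_pos.1 h2
  exact ⟨C, hF1 C hC, heC⟩

theorem court_any (G : MGraph V E) {k : ℕ} (hk : 1 ≤ k) (col : E → Fin (k + 1))
    (h : Court G col) (p : E → ℕ) (hr : ∀ e f, k * p e + 13 * k ≤ (k + 2) * p f) :
    InIntCone G p ↔ InLat G p := by
  refine ⟨fun h1 => (cone_lat_of_intCone G p h1).2, fun h2 => ?_⟩
  obtain ⟨v, hv⟩ := G.exists_halves
  exact cover_any G (bridgeless_of_court G col h v hv) v hv hk col (del_of_court G col h v hv) p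
    (fun e f hef => by rw [tc_eq_of_court G col h v hv e f hef]) h2 hr

theorem court_near (G : MGraph V E) {k : ℕ} (col : E → Fin (k + 1))
    (h : Court G col) (p : E → ℕ) (hev : ∀ e, Even (p e))
    (hr : ∀ e f, k * p e ≤ (k + 1) * p f) : InIntCone G p := by
  obtain ⟨v, hv⟩ := G.exists_halves
  exact cover_near G (bridgeless_of_court G col h v hv) v hv col (del_of_court G col h v hv) p hev
    (fun e f hef => by rw [tc_eq_of_court G col h v hv e f hef]) hr

end Pool.Agent.H1.SC
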